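import Pool.Agent.H25.EE.TargetsB

/-!
# e^e and e^(1/e) (MP_58ae59_nt), module MIN: choice of a minor
-/

set_option autoImplicit false

open Finset

namespace Pool.Agent.H59.EE

open Pool.Agent.H25.EE

theorem pf_MIN : T_MIN := by
  intro ι κ _ _ _ _ M hM
  let v : κ → (ι → ℂ) := fun b a => M a b
  have hspan : Submodule.span ℂ (Set.range v) = ⊤ := by
    by_contra hne
    obtain ⟨f, hf0, hf⟩ := Submodule.exists_le_ker_of_lt_top _ (lt_top_iff_ne_top.2 hne)
    have hfv : ∀ b, f (v b) = 0 := fun b => hf (Submodule.subset_span ⟨b, rfl⟩)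
    have hrep : ∀ w : ι → ℂ, f w = ∑ a, f (Pi.single a 1) * w a := fun w => by
      conv_lhs => rw [pi_eq_sum_univ' w]
      rw [map_sum]
      refine Finset.sum_congr rfl fun a _ => ?_
      rw [map_smul, smul_eq_mul, mul_comm]
    have hc := hM (fun a => f (Pi.single a 1)) fun b => by
      rw [← hrep (v b)]
      exact hfv b
    refine hf0 (LinearMap.ext fun w => ?_)
    rw [hrep w]
    simp only [LinearMap.zero_apply]
    refine Finset.sum_eq_zero fun a _ => ?_
    have h1 : f (Pi.single a 1) = 0 := congrFun hc a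
    rw [h1, zero_mul]
  obtain ⟨κ', a, ha, hs, hli⟩ := exists_linearIndependent' ℂ v
  have : Fintype κ' := Fintype.ofInjective a ha
  rw [hspan] at hs
  have hcard : Fintype.card ι = Fintype.card κ' := by
    have h1 := finrank_span_eq_card hli
    rw [hs, finrank_top, Module.finrank_fintype_fun_eq_card] at h1
    exact h1
  let e : ι ≃ κ' := Fintype.equivOfCardEq hcard
  refine ⟨a ∘ e, ha.comp e.injective, ?_⟩
  have hli2 : LinearIndependent ℂ (fun i : ι => v (a (e i))) := hli.comp e e.injective
  have hu : IsUnit (Matrix.of fun i i' => M i ((a ∘ e) i')) := by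
    rw [← Matrix.linearIndependent_cols_iff_isUnit]
    exact hli2
  exact ((Matrix.isUnit_iff_isUnit_det _).1 hu).ne_zero

end Pool.Agent.H59.EE
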